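import Mathlib
import Pool.Agent.H33.EgbDefs
import Pool.Agent.H33.Egb2

open MvPolynomial Pool.Agent.H33.Egb

namespace Pool.Agent.Results.MP_72f11f_al.Q1

def sig (p q : Y) : Prop :=
  (p.1.2 < p.1.1 ∧ q.1.1 < q.1.2) ∨
  (p.1.2 < p.1.1 ∧ q.1.2 < q.1.1 ∧ (p.1.1 < q.1.1 ∨ (p.1.1 = q.1.1 ∧ q.1.2 < p.1.2))) ∨
  (p.1.1 < p.1.2 ∧ q.1.1 < q.1.2 ∧ (p.1.2 < q.1.2 ∨ (p.1.2 = q.1.2 ∧ q.1.1 < p.1.1)))

theorem sig_sto : IsStrictTotalOrder Y sig where
  trichotomous := by
    rintro ⟨⟨a, b⟩, h⟩ ⟨⟨c, d⟩, h'⟩ h1 h2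
    simp only [sig] at *
    simp only [Subtype.mk.injEq, Prod.mk.injEq]
    omega
  irrefl := by
    rintro ⟨⟨a, b⟩, h⟩
    simp only [sig]; omega
  trans := by
    rintro ⟨⟨a, b⟩, h⟩ ⟨⟨c, d⟩, h'⟩ ⟨⟨e, f⟩, h''⟩
    simp only [sig]; omega

def YS : Type := Y

noncomputable instance : LinearOrder YS := by
  classical
  exact @linearOrderOfSTO Y sig sig_sto _

def lt2 (a b : Y →₀ ℕ) : Prop := ∃ i, (∀ j, sig j i → a j = b j) ∧ a i < b i
def lt1 (a b : ℕ →₀ ℕ) : Prop := ∃ i, (∀ j, i < j → a j = b j) ∧ a i < b i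

theorem lt2_iff (a b : Y →₀ ℕ) : lt2 a b ↔ toLex (show YS →₀ ℕ from a) < toLex (show YS →₀ ℕ from b) :=
  Iff.rfl

theorem lt1_iff (a b : ℕ →₀ ℕ) : lt1 a b ↔ toColex a < toColex b := Iff.rfl

def lt (a b : Y →₀ ℕ) : Prop := lt1 (wt a) (wt b) ∨ (wt a = wt b ∧ lt2 a b)

theorem lex_map {α β : Type} (g : α → β) (hg : Function.Injective g) (r : α → α → Prop)
    (r' : β → β → Prop) (hr : ∀ x y, r' (g x) (g y) → r x y) (a b : α →₀ ℕ)
    (h : ∃ i, (∀ j, r j i → a j = b j) ∧ a i < b i) :
    ∃ i, (∀ j, r' j i → a.mapDomain g j = b.mapDomain g j) ∧ a.mapDomain g i < b.mapDomain g i := by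
  obtain ⟨i, h1, h2⟩ := h
  refine ⟨g i, fun j hj => ?_, by simpa only [Finsupp.mapDomain_apply hg] using h2⟩
  by_cases hj' : j ∈ Set.range g
  · obtain ⟨j, rfl⟩ := hj'
    simp only [Finsupp.mapDomain_apply hg]
    exact h1 j (hr _ _ hj)
  · rw [Finsupp.mapDomain_of_notMem_range _ _ hj', Finsupp.mapDomain_of_notMem_range _ _ hj']

theorem le_outd (a : Y →₀ ℕ) (p : Y) : a p ≤ outd a p.1.1 := by
  have h : Finsupp.single p (a p) ≤ a := Finsupp.single_le_iff.mpr le_rfl
  have := Finsupp.mapDomain_mono (f := fun p : Y => p.1.1) h p.1.1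
  simpa [outd, ind, Finsupp.mapDomain_single] using this

theorem le_ind (a : Y →₀ ℕ) (p : Y) : a p ≤ ind a p.1.2 := by
  have h : Finsupp.single p (a p) ≤ a := Finsupp.single_le_iff.mpr le_rfl
  have := Finsupp.mapDomain_mono (f := fun p : Y => p.1.2) h p.1.2
  simpa [outd, ind, Finsupp.mapDomain_single] using this

theorem fiber_finite (w : ℕ →₀ ℕ) : {a | wt a = w}.Finite := by
  classical
  let E : Finset Y := (w.support ×ˢ w.support).subtype _
  let M : Y →₀ ℕ := Finsupp.onFinset E (fun p => if p ∈ E then w p.1.1 else 0)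
    (fun p hp => by by_contra h; simp [h] at hp)
  refine (Set.finite_Iic M).subset fun a ha p => ?_
  have ha' : wt a = w := ha
  have h1 := le_outd a p
  have h2 := le_ind a p
  have h3 : outd a p.1.1 ≤ w p.1.1 := by rw [← ha']; simp only [wt, Finsupp.add_apply]; omega
  have h4 : ind a p.1.2 ≤ w p.1.2 := by rw [← ha']; simp only [wt, Finsupp.add_apply]; omega
  simp only [M, Finsupp.onFinset_apply]
  split_ifs with h
  · omega
  · simp only [E, Finset.mem_subtype, Finset.mem_product, Finsupp.mem_support_iff] at h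
    omega

theorem lt_wf : WellFounded lt := by
  have key : ∀ w : Colex (ℕ →₀ ℕ), ∀ a, wt a = ofColex w → Acc lt a := by
    intro w
    induction w using WellFoundedLT.induction with
    | ind w ih =>
      have hwf : {a | wt a = ofColex w}.WellFoundedOn lt2 := by
        have : IsStrictOrder (Y →₀ ℕ) lt2 :=
          { irrefl := fun a => by rw [lt2_iff]; exact lt_irrefl _
            trans := fun a b c h1 h2 => by rw [lt2_iff] at *; exact h1.trans h2 }
        exact (fiber_finite _).wellFoundedOn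
      intro a ha
      refine hwf.induction (P := fun a => Acc lt a) ha fun a ha ih2 => ⟨_, fun b hb => ?_⟩
      have ha' : wt a = ofColex w := ha
      rcases hb with hb | hb
      · exact ih (toColex (wt b)) (by rw [lt1_iff, ha'] at hb; exact hb) b rfl
      · exact ih2 b (hb.1.trans ha') hb.2
  exact ⟨fun a => key (toColex (wt a)) a rfl⟩

theorem lt_trans' (a b c : Y →₀ ℕ) (h1 : lt a b) (h2 : lt b c) : lt a c := by
  simp only [lt, lt1_iff, lt2_iff] at *
  rcases h1 with h1 | h1 <;> rcases h2 with h2 | h2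
  · exact Or.inl (h1.trans h2)
  · exact Or.inl (h2.1 ▸ h1)
  · exact Or.inl (h1.1 ▸ h2)
  · exact Or.inr ⟨h1.1.trans h2.1, h1.2.trans h2.2⟩

theorem lt_tri (a b : Y →₀ ℕ) (h1 : ¬ lt a b) (h2 : ¬ lt b a) : a = b := by
  simp only [lt, lt1_iff, lt2_iff, not_or, not_and, not_lt] at *
  have h3 : wt a = wt b := le_antisymm (a := toColex (wt a)) (b := toColex (wt b)) h2.1 h1.1
  exact le_antisymm (a := toLex (show YS →₀ ℕ from a)) (b := toLex (show YS →₀ ℕ from b))
    (h2.2 h3.symm) (h1.2 h3)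

theorem lt2_add (a b c : Y →₀ ℕ) (h : lt2 a b) : lt2 (a + c) (b + c) := by
  obtain ⟨i, h1, h2⟩ := h
  exact ⟨i, fun j hj => by simp [h1 j hj], by simpa using h2⟩

theorem isInc : IsIncOrder lt := by
  refine ⟨{ wf := lt_wf, trichotomous := lt_tri }, ?_, ?_⟩
  · rintro a b c (⟨i, h1, h2⟩ | ⟨h1, h2⟩)
    · exact Or.inl ⟨i, fun j hj => by simp [wt_add, h1 j hj], by simpa [wt_add] using h2⟩
    · exact Or.inr ⟨by rw [wt_add, wt_add, h1], lt2_add a b c h2⟩
  · rintro ρ h a b (h1 | ⟨h1, h2⟩)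
    · left
      rw [wt_act, wt_act]
      exact lex_map ρ h.injective (fun j i => i < j) (fun j i => i < j)
        (fun x y hxy => h.lt_iff_lt.mp hxy) _ _ h1
    · refine Or.inr ⟨by rw [wt_act, wt_act, h1], ?_⟩
      refine lex_map (act ρ h.injective) ?_ sig sig ?_ _ _ h2
      · intro p q hpq
        have := congrArg Subtype.val hpq
        simp only [act, Prod.mk.injEq, h.injective.eq_iff] at this
        exact Subtype.ext (Prod.ext this.1 this.2)
      · intro p q hpq
        simpa only [sig, act, h.lt_iff_lt, h.injective.eq_iff] using hpq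

/-- indicator monomial of a finite set of variables -/
noncomputable def indic (E : Finset Y) : Y →₀ ℕ := ∑ p ∈ E, Finsupp.single p 1

theorem indic_apply (E : Finset Y) (p : Y) : indic E p = if p ∈ E then 1 else 0 := by
  simp [indic, Finsupp.finsetSum_apply, Finsupp.single_apply]

theorem outd_indic (E : Finset Y) (v : ℕ) : outd (indic E) v = (E.filter fun p => p.1.1 = v).card := by
  simp only [outd, indic, Finsupp.mapDomain_finsetSum, Finsupp.mapDomain_single,
    Finsupp.finsetSum_apply, Finsupp.single_apply, Finset.card_filter]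

theorem ind_indic (E : Finset Y) (v : ℕ) : ind (indic E) v = (E.filter fun p => p.1.2 = v).card := by
  simp only [ind, indic, Finsupp.mapDomain_finsetSum, Finsupp.mapDomain_single,
    Finsupp.finsetSum_apply, Finsupp.single_apply, Finset.card_filter]

/-- edges `i → i + d` modulo `n`, with tail different from `i0` -/
def edges (n d i0 : ℕ) : Finset Y :=
  ((Finset.range n ×ˢ Finset.range n).filter fun p =>
    p.1 ≠ i0 ∧ (p.2 = p.1 + d ∨ p.2 + n = p.1 + d)).subtype _

theorem mem_edges {n d i0 : ℕ} {p : Y} : p ∈ edges n d i0 ↔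
    p.1.1 < n ∧ p.1.2 < n ∧ p.1.1 ≠ i0 ∧ (p.1.2 = p.1.1 + d ∨ p.1.2 + n = p.1.1 + d) := by
  simp only [edges, Finset.mem_subtype, Finset.mem_filter, Finset.mem_product, Finset.mem_range]
  tauto

theorem outd_edges (n d i0 : ℕ) (hd : 0 < d) (hn : d < n) (v : ℕ) :
    outd (indic (edges n d i0)) v = if v < n ∧ v ≠ i0 then 1 else 0 := by
  rw [outd_indic]
  split_ifs with h
  · rw [Finset.card_eq_one]
    refine ⟨⟨(v, if v + d < n then v + d else v + d - n), by dsimp only; split_ifs <;> omega⟩, ?_⟩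
    ext ⟨⟨a, b⟩, hab⟩
    simp only [Finset.mem_filter, mem_edges, Finset.mem_singleton, Subtype.mk.injEq, Prod.mk.injEq]
    split_ifs <;> omega
  · rw [Finset.card_eq_zero, Finset.filter_eq_empty_iff]
    intro p hp
    rw [mem_edges] at hp
    omega

theorem ind_edges (n d i0 : ℕ) (hd : 0 < d) (hn : d < n) (hi : i0 < n ∨ 2 * n ≤ i0) (v : ℕ) :
    ind (indic (edges n d i0)) v =
      if v < n ∧ v ≠ i0 + d ∧ v + n ≠ i0 + d then 1 else 0 := by
  rw [ind_indic]
  split_ifs with h
  · rw [Finset.card_eq_one]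
    refine ⟨⟨(if d ≤ v then v - d else v + n - d, v), by dsimp only; split_ifs <;> omega⟩, ?_⟩
    ext ⟨⟨a, b⟩, hab⟩
    simp only [Finset.mem_filter, mem_edges, Finset.mem_singleton, Subtype.mk.injEq, Prod.mk.injEq]
    split_ifs <;> omega
  · rw [Finset.card_eq_zero, Finset.filter_eq_empty_iff]
    intro p hp
    rw [mem_edges] at hp
    omega

theorem degs (a b : Y →₀ ℕ) (h : wt b = wt a) (ha : ∀ v, ind a v ≤ 1) :
    ind b = ind a ∧ outd b = outd a := by
  have hv : ∀ v, outd b v + outd b v + ind b v = outd a v + outd a v + ind a v := fun v => by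
    have := DFunLike.congr_fun h v
    simpa only [wt, Finsupp.add_apply] using this
  have hle : ind a ≤ ind b := fun v => by
    have := hv v
    have := ha v
    show ind a v ≤ ind b v
    omega
  have hd : ∀ c : Y →₀ ℕ, (wt c).degree = 3 * c.degree ∧ (ind c).degree = c.degree := fun c => by
    simp only [wt, outd, ind, map_add, Finsupp.degree_mapDomain]
    exact ⟨by ring, trivial⟩
  have h1 : (ind a).degree = (ind b).degree := by
    have h2 := hd a
    have h3 := hd b
    rw [h] at h3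
    omega
  have h2 : ind b = ind a := by
    obtain ⟨c, hc⟩ := exists_add_of_le hle
    rw [hc, map_add] at h1
    have : c = 0 := (Finsupp.degree_eq_zero_iff c).mp (by omega)
    rw [hc, this, add_zero]
  refine ⟨h2, Finsupp.ext fun v => ?_⟩
  have := hv v
  rw [h2] at this
  omega

theorem two_out (b : Y →₀ ℕ) (p q : Y) (hpq : p ≠ q) (h : p.1.1 = q.1.1) :
    b p + b q ≤ outd b p.1.1 := by
  have h0 : Finsupp.single p (b p) + Finsupp.single q (b q) ≤ b := fun r => by
    simp only [Finsupp.add_apply, Finsupp.single_apply]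
    split_ifs <;> subst_vars <;> first | omega | exact absurd rfl hpq
  have := Finsupp.mapDomain_mono (f := fun p : Y => p.1.1) h0 p.1.1
  simpa [outd, ind, Finsupp.mapDomain_add, Finsupp.mapDomain_single, h] using this

theorem two_in (b : Y →₀ ℕ) (p q : Y) (hpq : p ≠ q) (h : p.1.2 = q.1.2) :
    b p + b q ≤ ind b p.1.2 := by
  have h0 : Finsupp.single p (b p) + Finsupp.single q (b q) ≤ b := fun r => by
    simp only [Finsupp.add_apply, Finsupp.single_apply]
    split_ifs <;> subst_vars <;> first | omega | exact absurd rfl hpq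
  have := Finsupp.mapDomain_mono (f := fun p : Y => p.1.2) h0 p.1.2
  simpa [outd, ind, Finsupp.mapDomain_add, Finsupp.mapDomain_single, h] using this

theorem ex_out (b : Y →₀ ℕ) (v : ℕ) (h : outd b v ≠ 0) : ∃ p : Y, p.1.1 = v ∧ b p ≠ 0 := by
  classical
  obtain ⟨p, h1, h2⟩ := Finset.mem_image.mp
    (Finsupp.mapDomain_support (Finsupp.mem_support_iff.mpr h))
  exact ⟨p, h2, Finsupp.mem_support_iff.mp h1⟩

theorem ex_in (b : Y →₀ ℕ) (v : ℕ) (h : ind b v ≠ 0) : ∃ p : Y, p.1.2 = v ∧ b p ≠ 0 := by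
  classical
  obtain ⟨p, h1, h2⟩ := Finset.mem_image.mp
    (Finsupp.mapDomain_support (Finsupp.mem_support_iff.mpr h))
  exact ⟨p, h2, Finsupp.mem_support_iff.mp h1⟩

theorem standard (n i : ℕ) (hi : i + 2 < n) (b : Y →₀ ℕ)
    (h : wt b = wt (indic (edges n 2 i))) : ¬ lt2 b (indic (edges n 2 i)) := by
  classical
  have ho := outd_edges n 2 i (by omega) (by omega)
  have hin := ind_edges n 2 i (by omega) (by omega) (by omega)
  obtain ⟨e1, e2⟩ := degs _ b h fun v => by rw [hin]; split_ifs <;> omega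
  rw [← e2] at ho
  rw [← e1] at hin
  rintro ⟨p0, h1, h2⟩
  simp only [indic_apply, mem_edges] at h1 h2
  have hp0 : p0.1.1 < n ∧ p0.1.2 < n ∧ p0.1.1 ≠ i ∧
      (p0.1.2 = p0.1.1 + 2 ∨ p0.1.2 + n = p0.1.1 + 2) := by
    by_contra hh
    rw [if_neg hh] at h2; omega
  rw [if_pos hp0] at h2
  have hb0 : b p0 = 0 := by omega
  have hhead : ∀ p : Y, b p ≠ 0 → p.1.2 < n ∧ p.1.2 ≠ i + 2 := fun p hp => by
    have := le_ind b p
    rw [hin] at this
    split_ifs at this <;> omega
  have htail : ∀ p : Y, b p ≠ 0 → p.1.1 < n ∧ p.1.1 ≠ i := fun p hp => by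
    have := le_outd b p
    rw [ho] at this
    split_ifs at this <;> omega
  have hsig : ∀ p : Y, b p ≠ 0 → sig p p0 →
      (p.1.2 = p.1.1 + 2 ∨ p.1.2 + n = p.1.1 + 2) := fun p hp hs => by
    have := h1 p hs
    split_ifs at this with hh
    · exact hh.2.2.2
    · exact absurd this hp
  have hne : ∀ p : Y, b p ≠ 0 → ¬ (p.1.1 = p0.1.1 ∧ p.1.2 = p0.1.2) := fun p hp hh =>
    hp (by rw [show p = p0 from Subtype.ext (Prod.ext hh.1 hh.2)]; exact hb0)
  by_cases c1 : p0.1.2 = p0.1.1 + 2
  · obtain ⟨p, hp1, hp2⟩ := ex_in b p0.1.2 (by rw [hin, if_pos (by omega)]; omega)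
    have a1 := hne p hp2
    have a2 := htail p hp2
    have a3 := hsig p hp2
    have a4 := p.2
    simp only [sig] at a3
    have a5 : p.1.1 + 2 < p0.1.2 := by omega
    obtain ⟨q, hq1, hq2⟩ : ∃ q : Y, q.1.1 = p.1.1 ∧ q.1.2 = p.1.1 + 2 :=
      ⟨⟨(p.1.1, p.1.1 + 2), by simp⟩, rfl, rfl⟩
    have a6 : b q = 1 := by
      rw [h1 q (by simp only [sig]; omega), if_pos (by omega)]
    have a7 := two_out b p q (fun e => by rw [← e] at hq2; omega) hq1.symm
    rw [ho] at a7
    split_ifs at a7 <;> omega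
  by_cases c2 : p0.1.1 + 1 = n
  · obtain ⟨p, hp1, hp2⟩ := ex_out b p0.1.1 (by rw [ho, if_pos (by omega)]; omega)
    have a1 := hne p hp2
    have a2 := hhead p hp2
    have a3 := hsig p hp2
    have a4 := p.2
    simp only [sig] at a3
    have a5 : p.1.2 = 0 := by omega
    obtain ⟨q, hq1, hq2⟩ : ∃ q : Y, q.1.1 = n - 2 ∧ q.1.2 = 0 :=
      ⟨⟨(n - 2, 0), by simp only; omega⟩, rfl, rfl⟩
    have a6 : b q = 1 := by
      rw [h1 q (by simp only [sig]; omega), if_pos (by omega)]
    have a7 := two_in b p q (fun e => by rw [← e] at hq1; omega) (a5.trans hq2.symm)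
    rw [hin] at a7
    split_ifs at a7 <;> omega
  · have hup : ∀ p : Y, b p ≠ 0 → p.1.1 + 2 ≤ n → p.1.1 < p.1.2 := fun p hp hh => by
      have a1 := hne p hp
      have a3 := hsig p hp
      have a4 := p.2
      simp only [sig] at a3
      omega
    have hex : ∀ v ∈ Finset.Icc (i + 1) (n - 2), ∃ p : Y, p.1.1 = v ∧ b p ≠ 0 := fun v hv => by
      rw [Finset.mem_Icc] at hv
      exact ex_out b v (by rw [ho, if_pos (by omega)]; omega)
    have : Nonempty Y := ⟨p0⟩
    choose! g hg1 hg2 using hex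
    have hc := Finset.card_le_card_of_injOn (s := Finset.Icc (i + 1) (n - 2))
      (t := Finset.Icc (i + 3) (n - 1)) (fun v => (g v).1.2) (fun v hv => by
        have a1 := hg1 v hv
        have a2 := hhead _ (hg2 v hv)
        have a3 := hup _ (hg2 v hv)
        simp only [Finset.coe_Icc, Set.mem_Icc] at hv ⊢
        omega) (fun u hu v hv huv => by
        by_contra hne'
        have a1 := hg1 u hu
        have a2 := hg1 v hv
        have a3 := hg2 u hu
        have a4 := hg2 v hv
        have a7 := two_in b (g u) (g v) (fun e => hne' (by rw [← a1, ← a2, e])) huv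
        rw [hin] at a7
        split_ifs at a7 <;> omega)
    simp only [Nat.card_Icc] at hc
    omega

theorem result : ∃ f : MvPolynomial (Fin 2) ℂ, FinGenSym (RingHom.ker (phi f)) ∧
    ∃ lt, IsIncOrder lt ∧
      ¬ ∃ G : Finset (MvPolynomial Y ℂ), IsEGB lt (RingHom.ker (phi f)) G := by
  classical
  refine ⟨f0, finGen, lt, isInc, ?_⟩
  rintro ⟨G, hG1, hG2⟩
  set D := G.sup totalDegree with hD
  set n := D + 4 with hn
  set A := indic (edges n 2 (2 * n)) with hA
  set B := indic (edges n 1 (2 * n)) with hB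
  have hwt : wt B = wt A := by
    ext v
    simp only [wt, Finsupp.add_apply, hA, hB, outd_edges n 2 _ (by omega) (by omega),
      outd_edges n 1 _ (by omega) (by omega), ind_edges n 2 (2 * n) (by omega) (by omega) (by omega),
      ind_edges n 1 (2 * n) (by omega) (by omega) (by omega)]
    split_ifs <;> omega
  have hlt : lt2 B A := by
    refine ⟨⟨(n - 2, 0), by simp only; omega⟩, fun j hj => ?_, ?_⟩
    · have := j.2
      simp only [sig] at hj
      simp only [hA, hB, indic_apply, mem_edges]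
      rw [if_neg (by omega), if_neg (by omega)]
    · simp only [hA, hB, indic_apply, mem_edges]
      rw [if_neg (by omega), if_pos (by omega)]
      omega
  have hAB : B ≠ A := fun e => by
    rw [e, lt2_iff] at hlt; exact lt_irrefl _ hlt
  have hmem : (monomial A 1 : MvPolynomial Y ℂ) ∈ leadIdeal lt (RingHom.ker (phi f0)) := by
    refine Ideal.subset_span ⟨monomial A 1 - monomial B 1, ?_, A, ?_, ?_, rfl⟩
    · change phi f0 _ = 0
      rw [map_sub, phi_mono, phi_mono, hwt, sub_self]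
    · simp [coeff_monomial, hAB]
    · intro b hb hbA
      have : b = B := by
        by_contra hh
        simp [coeff_monomial, Ne.symm hh, Ne.symm hbA] at hb
      rw [this]
      exact Or.inr ⟨hwt, hlt⟩
  rw [← hG2] at hmem
  let S : Set (Y →₀ ℕ) := {a | a.degree ≤ D ∧ ∃ b, wt b = wt a ∧ lt2 b a}
  have hsub : leadIdeal lt {q | ∃ (ρ : ℕ → ℕ) (h : StrictMono ρ), ∃ g ∈ (G : Set _),
      q = rename (act ρ h.injective) g} ≤
      Ideal.span ((fun s => monomial s (1 : ℂ)) '' S) := by
    apply Ideal.span_mono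
    rintro _ ⟨_, ⟨ρ, h, g, hg, rfl⟩, a, ha, hlead, rfl⟩
    refine ⟨a, ⟨?_, ?_⟩, rfl⟩
    · exact (le_totalDegree ha).trans ((totalDegree_rename_le _ _).trans
        (Finset.le_sup (f := totalDegree) hg))
    · obtain ⟨b, hb1, hb2, hb3⟩ := other (rename (act ρ h.injective) g)
        (by rw [phi_act, show phi f0 g = 0 from hG1 hg, map_zero]) a ha
      rcases hlead b hb1 hb2 with h1 | h1
      · rw [hb3, lt1_iff] at h1; exact absurd h1 (lt_irrefl _)
      · exact ⟨b, h1⟩
  obtain ⟨a, ⟨ha1, b, hb1, hb2⟩, ha2⟩ := mem_ideal_span_monomial_image.mp (hsub hmem) A (by simp)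
  obtain ⟨i, hi1, hi2⟩ := Finset.exists_mem_notMem_of_card_lt_card
    (s := a.support.image fun p => p.1.1) (t := Finset.range (n - 2)) (by
      rw [Finset.card_range]
      refine Finset.card_image_le.trans_lt (lt_of_le_of_lt ?_ (show D < n - 2 by omega))
      refine le_trans ?_ ha1
      rw [Finsupp.degree_apply, Finset.card_eq_sum_ones]
      exact Finset.sum_le_sum fun p hp => Nat.one_le_iff_ne_zero.mpr (Finsupp.mem_support_iff.mp hp))
  rw [Finset.mem_range] at hi1
  have hle : a ≤ indic (edges n 2 i) := fun p => by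
    have h1 := ha2 p
    by_cases hp : a p = 0
    · rw [hp]; exact Nat.zero_le _
    have h2 : p.1.1 ≠ i := fun e =>
      hi2 (Finset.mem_image.mpr ⟨p, Finsupp.mem_support_iff.mpr hp, e⟩)
    simp only [hA, indic_apply, mem_edges] at h1 ⊢
    split_ifs at h1 ⊢ <;> omega
  obtain ⟨c, hc⟩ := exists_add_of_le hle
  refine standard n i (by omega) (b + c) (by rw [hc, wt_add, wt_add, hb1]) ?_
  rw [hc]
  exact lt2_add _ _ _ hb2

end Pool.Agent.Results.MP_72f11f_al.Q1
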